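import Pool.Agent.Run7.h215.SQ.Main

/-!
# Equality never holds in the bound for packings of unit discs in a square (MP_77b5a8_co)

The number of unit discs in a square of side `s` is bounded from below by hexagonal packings which
have a slip line: one part of the hexagonal lattice is shifted along a line of direction 60 degrees,
rolling over the discs of the other part. The packing gets shorter in the direction of the rows, and
the unused height is used for this. This gives
`√12 (n - 1) ≥ (s_n - 2) (s_n - 2 √2 + √3)` for every `n`.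
-/

set_option autoImplicit false

namespace Pool.Agent.Results.MP_77b5a8_co.NoEquality

open Run7.h215.SQ

/-- (i) The minimal side length `s_n` exists for every `n ≥ 1`.
(ii) The equality `√12 n = F(s_n)` does not hold for infinitely many `n`.
(iii) It holds for no `n ≥ 1`: `√12 n ≥ F(s_n) + √12`.
(iv) `√12 (n - 1) ≥ (s_n - 2) (s_n - (2 √2 - √3))` for all `n ≥ 1`.
(v) For all real `α > 2 + 2 √2 - √3 = 3.096..` and `β` the inequality
`√12 n ≤ s_n ^ 2 - α s_n + β` holds for finitely many `n` only. -/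
theorem result :
    (∀ n : ℕ, 1 ≤ n → ∃ s, IsMinSide n s) ∧
    ¬ {n : ℕ | 1 ≤ n ∧ ∃ s, IsMinSide n s ∧
      √12 * n = s ^ 2 - (3 + √3) * s + 2 + 2 * √3}.Infinite ∧
    (∀ (n : ℕ) (s : ℝ), 1 ≤ n → IsMinSide n s →
      s ^ 2 - (3 + √3) * s + 2 + 2 * √3 + √12 ≤ √12 * n) ∧
    (∀ (n : ℕ) (s : ℝ), 1 ≤ n → IsMinSide n s →
      (s - 2) * (s - (2 * √2 - √3)) ≤ √12 * (n - 1)) ∧
    ∀ α β : ℝ, 2 + 2 * √2 - √3 < α →
      {n : ℕ | 1 ≤ n ∧ ∃ s, IsMinSide n s ∧ √12 * n ≤ s ^ 2 - α * s + β}.Finite := by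
  have s12 : 0 < √12 := Real.sqrt_pos.2 (by norm_num)
  have s3 : 1 ≤ √3 := by
    rw [Real.one_le_sqrt]
    norm_num
  have s2 : √2 ≤ 3 / 2 := Real.sqrt_le_iff.2 ⟨by norm_num, by norm_num⟩
  have gap : ∀ (n : ℕ) (s : ℝ), 1 ≤ n → IsMinSide n s →
      s ^ 2 - (3 + √3) * s + 2 + 2 * √3 + √12 ≤ √12 * n := by
    intro n s hn hs
    have h1 := bound hn hs
    have h2 := two_le hn hs.1
    have h3 : 0 ≤ (s - 2) * (1 + 2 * √3 - 2 * √2) := mul_nonneg (by linarith) (by linarith)
    nlinarith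
  refine ⟨exists_minSide, ?_, gap, fun n s hn hs => bound hn hs, ?_⟩
  · have : {n : ℕ | 1 ≤ n ∧ ∃ s, IsMinSide n s ∧
        √12 * n = s ^ 2 - (3 + √3) * s + 2 + 2 * √3} = ∅ := by
      ext n
      constructor
      · rintro ⟨hn, s, hs, he⟩
        have := gap n s hn hs
        exact absurd he (by intro h; linarith)
      · intro h
        exact absurd h (Set.notMem_empty n)
    rw [this]
    exact Set.not_infinite.2 Set.finite_empty
  · intro α β hα
    obtain ⟨S, hS⟩ : ∃ S : ℝ, S = |β| / (α - (2 + 2 * √2 - √3)) := ⟨_, rfl⟩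
    obtain ⟨B, hB⟩ : ∃ B : ℝ, B = (S ^ 2 + |α| * S + |β|) / √12 := ⟨_, rfl⟩
    refine (Set.finite_Iic ⌊B⌋₊).subset ?_
    rintro n ⟨hn, s, hs, hle⟩
    have h1 := bound hn hs
    have h2 := two_le hn hs.1
    have hpos : 0 < α - (2 + 2 * √2 - √3) := by linarith
    have h3 : (α - (2 + 2 * √2 - √3)) * s ≤ |β| := by
      have h4 := le_abs_self β
      have h5 : 0 ≤ √2 := Real.sqrt_nonneg 2
      have h6 : √3 ≤ 2 := Real.sqrt_le_iff.2 ⟨by norm_num, by norm_num⟩
      have h7 : 1 ≤ √2 := by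
        rw [Real.one_le_sqrt]
        norm_num
      nlinarith
    have h8 : s ≤ S := by
      rw [hS, le_div_iff₀ hpos]
      linarith
    have h9 : (n : ℝ) ≤ B := by
      rw [hB, le_div_iff₀ s12]
      have h10 : s ^ 2 ≤ S ^ 2 := by nlinarith
      have h11 : -α * s ≤ |α| * S :=
        (mul_le_mul_of_nonneg_right (neg_le_abs α) (by linarith)).trans
          (mul_le_mul_of_nonneg_left h8 (abs_nonneg _))
      have h12 := le_abs_self β
      nlinarith
    exact Nat.le_floor h9

end Pool.Agent.Results.MP_77b5a8_co.NoEquality
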